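import Pool.Agent.Helper29.CPB.Graded
import Pool.Agent.Helper89.Sgn.Idem

/-!
# Nilpotency in low degrees
-/

namespace Pool.Agent.Helper29.CPB

open TensorProduct

universe u v

variable {F : Type u} [Field F] [CharZero F]

namespace NL

variable (X : Variety.{u, v} F)

lemma sum_π_apply (x : X.H) : ∑ i ∈ Finset.Icc (0 : ℤ) (2 * X.dim), X.π i x = x := by
  rw [← LinearMap.sum_apply, X.π_sum]; rfl

lemma ext_homog_tmul {M : Type*} [AddCommGroup M] [Module F M]
    {f g : (X.H ⊗[F] X.H) →ₗ[F] M}
    (h : ∀ (a b : ℤ) (x y : X.H), X.π a x = x → X.π b y = y → f (x ⊗ₜ y) = g (x ⊗ₜ y)) :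
    f = g := by
  apply TensorProduct.ext'
  intro x y
  have hs : x ⊗ₜ[F] y = ∑ i ∈ Finset.Icc (0 : ℤ) (2 * X.dim),
      ∑ j ∈ Finset.Icc (0 : ℤ) (2 * X.dim), X.π i x ⊗ₜ[F] X.π j y := by
    conv_lhs => rw [← sum_π_apply X x, TensorProduct.sum_tmul]
    refine Finset.sum_congr rfl fun i _ => ?_
    conv_lhs => rw [← sum_π_apply X y, TensorProduct.tmul_sum]
  rw [hs, map_sum, map_sum]
  refine Finset.sum_congr rfl fun i _ => ?_
  rw [map_sum, map_sum]
  refine Finset.sum_congr rfl fun j _ => ?_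
  exact h i j _ _ (X.π_apply_idem i x) (X.π_apply_idem j y)

omit [CharZero F] in
lemma tmul_self_eq_zero {V : Type*} [AddCommGroup V] [Module F V] {x : V}
    (h : x ⊗ₜ[F] x = 0) : x = 0 := by
  by_contra hx
  obtain ⟨φ, hφ⟩ := Module.Projective.exists_dual_ne_zero F hx
  have h1 := congrArg ((TensorProduct.lid F F).toLinearMap ∘ₗ TensorProduct.map φ φ) h
  rw [map_zero] at h1
  simp only [LinearMap.coe_comp, Function.comp_apply, TensorProduct.map_tmul,
    LinearEquiv.coe_coe, TensorProduct.lid_tmul, smul_eq_mul] at h1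
  exact hφ (by simpa using h1)

variable {X}

variable {Z : Variety.{u, v} F} {τ : (X.H ⊗[F] X.H) ≃ₗ[F] Z.H}

lemma conj_apply' (g : Module.End F Z.H) (t : X.H ⊗[F] X.H) :
    τ.symm.conj g t = τ.symm (g (τ t)) := by
  rw [LinearEquiv.conj_apply_apply, LinearEquiv.symm_symm]

lemma τ_conj_apply (g : Module.End F Z.H) (t : X.H ⊗[F] X.H) :
    τ (τ.symm.conj g t) = g (τ t) := by
  rw [conj_apply', LinearEquiv.apply_symm_apply]

lemma conj_mul' (f g : Module.End F Z.H) :
    τ.symm.conj (f * g) = τ.symm.conj f * τ.symm.conj g := by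
  ext1
  ext x y
  simp [conj_apply']

lemma conj_one' : τ.symm.conj (1 : Module.End F Z.H) = 1 := by
  ext1
  ext x y
  simp [conj_apply']

lemma conj_pow' (f : Module.End F Z.H) (n : ℕ) :
    τ.symm.conj (f ^ n) = (τ.symm.conj f) ^ n := by
  induction n with
  | zero => rw [pow_zero, pow_zero, conj_one']
  | succ n ih => rw [pow_succ, pow_succ, conj_mul', ih]

lemma conj_conj (g : Module.End F (X.H ⊗[F] X.H)) : τ.symm.conj (τ.conj g) = g := by
  ext1
  ext x y
  simp

lemma conj_symm_conj (g : Module.End F Z.H) : τ.conj (τ.symm.conj g) = g := by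
  ext1; simp

lemma conj_L (hsq : IsSquare X Z τ) :
    τ.symm.conj Z.L = TensorProduct.map X.L 1 + TensorProduct.map 1 X.L := by
  apply TensorProduct.ext'
  intro x y
  rw [conj_apply', hsq.polar, LinearEquiv.symm_apply_apply, LinearMap.add_apply,
    TensorProduct.map_tmul, TensorProduct.map_tmul]
  rfl

lemma map_mul' (a b c d : Module.End F X.H) :
    (TensorProduct.map a b : Module.End F (X.H ⊗[F] X.H)) * TensorProduct.map c d =
      TensorProduct.map (a * c) (b * d) :=
  (TensorProduct.map_mul a c b d).symm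

lemma trace_conj (g : Module.End F Z.H) :
    LinearMap.trace F Z.H g = LinearMap.trace F (X.H ⊗[F] X.H) (τ.symm.conj g) :=
  (LinearMap.trace_conj' g τ.symm).symm

lemma conj_sgn (hsq : IsSquare X Z τ) : τ.symm.conj Z.sgn = TensorProduct.map X.sgn X.sgn := by
  apply ext_homog_tmul X
  intro i j x y hx hy
  rw [conj_apply', Z.sgn_apply (hsq.grade i j x y hx hy), map_smul, LinearEquiv.symm_apply_apply,
    TensorProduct.map_tmul, X.sgn_apply hx, X.sgn_apply hy, TensorProduct.smul_tmul_smul,
    ← pow_add]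
  congr 1
  rcases Int.even_or_odd (i + j) with h | h
  · have h1 : Even (i + j).natAbs := Int.natAbs_even.mpr h
    have h2 : Even (i.natAbs + j.natAbs) := by
      rw [Nat.even_add, Int.natAbs_even, Int.natAbs_even]
      exact Int.even_add.mp h
    rw [h1.neg_one_pow, h2.neg_one_pow]
  · have h1 : Odd (i + j).natAbs := Int.natAbs_odd.mpr h
    have h2 : Odd (i.natAbs + j.natAbs) := by
      rw [← Nat.not_even_iff_odd, Nat.even_add, Int.natAbs_even, Int.natAbs_even]
      rw [← Int.not_even_iff_odd, Int.even_add] at h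
      exact h
    rw [h1.neg_one_pow, h2.neg_one_pow]

/-! ### trace formulas for contractions -/

section ptr

variable {V : Type v} [AddCommGroup V] [Module F V] [FiniteDimensional F V]

omit [CharZero F] in
lemma trace_ptr₂' (γ : Module.End F (V ⊗[F] V)) (v : Module.End F V) :
    LinearMap.trace F V (ptr₂ γ * v) =
      LinearMap.trace F (V ⊗[F] V) (γ * TensorProduct.map v 1) := by
  obtain ⟨t, rfl⟩ := (homTensorHomEquiv F V V V V).surjective γ
  unfold ptr₂
  rw [LinearEquiv.symm_apply_apply]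
  induction t using TensorProduct.induction_on with
  | zero => simp
  | tmul f g =>
    have e : (homTensorHomEquiv F V V V V) (f ⊗ₜ[F] g) =
        (TensorProduct.map f g : Module.End F (V ⊗[F] V)) := by
      simp [homTensorHomEquiv_apply]
    rw [e, ← TensorProduct.map_mul, mul_one, LinearMap.trace_tensorProduct']
    simp [mul_comm]
  | add a b ha hb =>
    simp only [map_add, add_mul] at ha hb ⊢
    rw [ha, hb]

omit [CharZero F] in
lemma trace_ptr₁' (γ : Module.End F (V ⊗[F] V)) (v : Module.End F V) :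
    LinearMap.trace F V (ptr₁ γ * v) =
      LinearMap.trace F (V ⊗[F] V) (γ * TensorProduct.map 1 v) := by
  obtain ⟨t, rfl⟩ := (homTensorHomEquiv F V V V V).surjective γ
  unfold ptr₁
  rw [LinearEquiv.symm_apply_apply]
  induction t using TensorProduct.induction_on with
  | zero => simp
  | tmul f g =>
    have e : (homTensorHomEquiv F V V V V) (f ⊗ₜ[F] g) =
        (TensorProduct.map f g : Module.End F (V ⊗[F] V)) := by
      simp [homTensorHomEquiv_apply]
    rw [e, ← TensorProduct.map_mul, mul_one, LinearMap.trace_tensorProduct']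
    simp
  | add a b ha hb =>
    simp only [map_add, add_mul] at ha hb ⊢
    rw [ha, hb]

end ptr

/-- numerically trivial correspondences of degree `r` -/
def NumTriv (X : Variety.{u, v} F) (r : ℤ) (a : Module.End F X.H) : Prop :=
  ∀ v ∈ X.corr (-r), LinearMap.trace F X.H (v * (a * X.sgn)) = 0

lemma NumTriv.mul_left {r s : ℤ} {a l : Module.End F X.H} (h : NumTriv X r a)
    (hl : l ∈ X.corr s) : NumTriv X (s + r) (l * a) := by
  intro v hv
  have := h (v * l) (X.corr_mul' (by ring) hv hl)
  rw [mul_assoc l, ← mul_assoc v]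
  exact this

lemma num_left (hsq : IsSquare X Z τ) {r s : ℤ} {a b : Module.End F X.H}
    (h : NumTriv X r a) (hb : b ∈ X.corr s) :
    NumTriv Z (r + s) (τ.conj (TensorProduct.map a b)) := by
  intro w hw
  rw [trace_conj (τ := τ), conj_mul', conj_mul', conj_conj, conj_sgn hsq, map_mul']
  have h1 : (TensorProduct.map (a * X.sgn) (b * X.sgn) : Module.End F (X.H ⊗[F] X.H)) =
      TensorProduct.map 1 b * TensorProduct.map 1 X.sgn * TensorProduct.map (a * X.sgn) 1 := by
    rw [map_mul', map_mul', one_mul, one_mul, mul_one]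
  have h2 : τ.symm.conj w * TensorProduct.map 1 b =
      τ.symm.conj (w * τ.conj (TensorProduct.map 1 b)) := by
    rw [conj_mul', conj_conj]
  rw [h1, ← mul_assoc, ← mul_assoc, h2, ← trace_ptr₂']
  apply h
  have h3 := hsq.prod 0 s 1 b X.corr_one hb
  exact hsq.contr₂ _ _ (Z.corr_mul' (by ring) hw h3)

lemma num_right (hsq : IsSquare X Z τ) {r s : ℤ} {a b : Module.End F X.H}
    (ha : a ∈ X.corr r) (h : NumTriv X s b) :
    NumTriv Z (r + s) (τ.conj (TensorProduct.map a b)) := by
  intro w hw
  rw [trace_conj (τ := τ), conj_mul', conj_mul', conj_conj, conj_sgn hsq, map_mul']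
  have h1 : (TensorProduct.map (a * X.sgn) (b * X.sgn) : Module.End F (X.H ⊗[F] X.H)) =
      TensorProduct.map a 1 * TensorProduct.map X.sgn 1 * TensorProduct.map 1 (b * X.sgn) := by
    rw [map_mul', map_mul', one_mul, one_mul, mul_one]
  have h2 : τ.symm.conj w * TensorProduct.map a 1 =
      τ.symm.conj (w * τ.conj (TensorProduct.map a 1)) := by
    rw [conj_mul', conj_conj]
  rw [h1, ← mul_assoc, ← mul_assoc, h2, ← trace_ptr₁']
  apply h
  have h3 := hsq.prod r 0 a 1 ha X.corr_one
  exact hsq.contr₁ _ _ (Z.corr_mul' (by ring) hw h3)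

/-- numerically trivial correspondences of degree `r` are stable under sums -/
lemma num_sum {ι : Type*} (s : Finset ι) (c : ι → F) (f : ι → Module.End F X.H) {r : ℤ}
    (h : ∀ m ∈ s, NumTriv X r (f m)) : NumTriv X r (∑ m ∈ s, c m • f m) := by
  intro v hv
  rw [Finset.sum_mul, Finset.mul_sum, map_sum]
  apply Finset.sum_eq_zero
  intro m hm
  rw [smul_mul_assoc, mul_smul_comm, map_smul, h m hm v hv, smul_zero]

/-- `L_Z^(2c-1) (a ⊗ a)` is numerically trivial if `L^c a` is -/
lemma num_square (hsq : IsSquare X Z τ) {c : ℕ} (hc : 1 ≤ c) {a : Module.End F X.H}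
    (ha : a ∈ X.corr 0) (hn : NumTriv X c (X.L ^ c * a)) :
    NumTriv Z ((2 * c - 1 : ℕ) : ℤ) (Z.L ^ (2 * c - 1) * τ.conj (TensorProduct.map a a)) := by
  set n := 2 * c - 1 with hnd
  have hexp : Z.L ^ n * τ.conj (TensorProduct.map a a) =
      ∑ m ∈ Finset.range (n + 1), ((n.choose m : ℕ) : F) •
        τ.conj (TensorProduct.map (X.L ^ m * a) (X.L ^ (n - m) * a)) := by
    apply (τ.symm.conj).injective
    rw [map_sum, conj_mul', conj_pow', conj_conj, conj_L hsq]
    have hcm : Commute (TensorProduct.map X.L 1 : Module.End F (X.H ⊗[F] X.H))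
        (TensorProduct.map 1 X.L) := by
      show _ * _ = _ * _
      rw [map_mul', map_mul', mul_one, one_mul]
    rw [hcm.add_pow, Finset.sum_mul]
    refine Finset.sum_congr rfl fun m _ => ?_
    rw [map_smul, conj_conj, TensorProduct.map_pow, TensorProduct.map_pow, one_pow, one_pow,
      map_mul', mul_one, one_mul, (Nat.cast_commute _ _).eq.symm, mul_assoc, map_mul',
      ← nsmul_eq_mul, Nat.cast_smul_eq_nsmul]
  rw [hexp]
  apply num_sum
  intro m hm
  rw [Finset.mem_range] at hm
  rcases Nat.lt_or_ge m c with h | h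
  · have h1 : X.L ^ (n - m) * a = X.L ^ (n - m - c) * (X.L ^ c * a) := by
      rw [← mul_assoc, ← pow_add]; congr 2; omega
    have h2 := num_right hsq (X.corr_mul' (by simp) (X.Lpow_corr m) ha : X.L ^ m * a ∈
      X.corr (m : ℤ)) (hn.mul_left (X.Lpow_corr (n - m - c)))
    rw [h1]
    convert h2 using 1
    omega
  · have h1 : X.L ^ m * a = X.L ^ (m - c) * (X.L ^ c * a) := by
      rw [← mul_assoc, ← pow_add]; congr 2; omega
    have h2 := num_left hsq (hn.mul_left (X.Lpow_corr (m - c)))
      (X.corr_mul' (by simp) (X.Lpow_corr (n - m)) ha : X.L ^ (n - m) * a ∈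
        X.corr ((n - m : ℕ) : ℤ))
    rw [h1]
    convert h2 using 1
    omega

/-- an operator of degree `0` commutes with the parity operator -/
lemma comm_sgn {x : Module.End F X.H} (hx : x ∈ X.corr 0) : x * X.sgn = X.sgn * x := by
  apply X.ext_homog
  intro i v hv
  rw [Module.End.mul_apply, Module.End.mul_apply, X.sgn_apply hv, map_smul,
    X.sgn_apply (X.corr_homog hx (by ring) hv)]

end NL

open NL

/-- If `L^c a` is numerically trivial, then `a` is nilpotent on the degrees at most `dim X - c`;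
the only input is the operator given by one generic section of `X × X`. -/
theorem nil_of_evenInverse {X Z : Variety.{u, v} F} {τ : (X.H ⊗[F] X.H) ≃ₗ[F] Z.H}
    (hsq : IsSquare X Z τ) (c : ℕ) (hc : 1 ≤ c) (_hcn : c ≤ X.dim)
    (h : EvenInverse Z (2 * c - 1)) (a : Module.End F X.H) (ha : a ∈ X.corr 0)
    (hnum : ∀ θ ∈ X.corr (-c), LinearMap.trace F X.H (θ * X.L ^ c * a * X.sgn) = 0) :
    ∃ M : ℕ, ∀ j : ℤ, j ≤ X.dim - c → ∀ x, X.π j x = x → (a ^ M) x = 0 := by
  have hn : NumTriv X c (X.L ^ c * a) := by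
    intro v hv
    have := hnum v hv
    rw [← mul_assoc, ← mul_assoc]
    exact this
  have hdim := hsq.dim
  have hsquare := num_square hsq hc ha hn
  obtain ⟨γ, hγ, hlow, hhigh⟩ := h
  set n := 2 * c - 1 with hnd
  have haa : τ.conj (TensorProduct.map a a) ∈ Z.corr 0 := by
    have := hsq.prod 0 0 a a ha ha
    simpa using this
  set A : Module.End F Z.H := τ.conj (TensorProduct.map a a) with hA
  set t : Module.End F Z.H := γ * Z.L ^ n * γ * (Z.L ^ n * A) with ht
  have hγL : γ * Z.L ^ n * γ ∈ Z.corr (-(n : ℤ)) := by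
    refine Z.corr_mul' (r := 0) (s := -(n : ℤ)) (by ring) ?_ hγ
    exact Z.corr_mul' (by ring) hγ (Z.Lpow_corr n)
  have htm : t ∈ Z.corr 0 := by
    rw [ht]
    refine Z.corr_mul' (r := -(n : ℤ)) (s := (n : ℤ)) (by ring) hγL ?_
    exact Z.corr_mul' (by ring) (Z.Lpow_corr n) haa
  have htn : NumTriv Z 0 t := by
    have h1 := hsquare.mul_left hγL
    rw [neg_add_cancel] at h1
    exact h1
  -- `t` is purely even
  have heven : t * Z.sgn = t := by
    rw [comm_sgn htm]
    apply Z.ext_homog
    intro j z hz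
    rw [Module.End.mul_apply, Z.sgn_apply (Z.corr_homog htm (by ring) hz)]
    rcases Int.even_or_odd j with hj | hj
    · rw [(Int.natAbs_even.mpr hj).neg_one_pow, one_smul]
    · have h0 : t z = 0 := by
        have hAz : Z.π j (A z) = A z := Z.corr_homog haa (by ring) hz
        have hne : ¬ Even j := Int.not_even_iff_odd.mpr hj
        have e : t z = γ ((Z.L ^ n) (γ ((Z.L ^ n) (A z)))) := by
          rw [ht]; simp only [Module.End.mul_apply]
        rw [e]
        by_cases hle : j + n ≤ Z.dim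
        · have h2 := hlow j (by exact_mod_cast hle) (A z) hAz
          rw [if_neg hne] at h2
          rw [h2, map_zero, map_zero]
        · have h3 : Z.π (j + 2 * n) ((Z.L ^ n) (A z)) = (Z.L ^ n) (A z) :=
            Z.corr_homog (Z.Lpow_corr n) rfl hAz
          have hne' : ¬ Even (j + 2 * (n : ℤ)) := by
            intro h4
            apply hne
            have := h4.sub (even_two_mul (n : ℤ))
            simpa using this
          have h2 := hhigh (j + 2 * n) (by omega) _ h3
          rw [if_neg hne'] at h2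
          rw [h2, map_zero]
      rw [h0, smul_zero]
  obtain ⟨k, hk⟩ : IsNilpotent t := by
    apply Pool.Agent.Helper89.Sgn.isNilpotent_of_trace
    intro m hm
    obtain ⟨k, rfl⟩ : ∃ k, m = k + 1 := ⟨m - 1, by omega⟩
    have h1 := htn (t ^ k) (by
      rw [neg_zero]; exact Z.corr_pow_zero htm k)
    rw [heven, ← pow_succ] at h1
    exact h1
  refine ⟨k, fun i hi x hx => ?_⟩
  have hstep : ∀ (x : X.H), X.π i x = x → t (τ (x ⊗ₜ x)) = τ (a x ⊗ₜ a x) := by
    intro x hx
    have hax : X.π i (a x) = a x := X.corr_homog ha (by ring) hx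
    have e1 : A (τ (x ⊗ₜ x)) = τ (a x ⊗ₜ a x) := by
      rw [hA, LinearEquiv.conj_apply_apply, LinearEquiv.symm_apply_apply, TensorProduct.map_tmul]
    have e2 : Z.π (i + i) (τ (a x ⊗ₜ a x)) = τ (a x ⊗ₜ a x) := hsq.grade i i _ _ hax hax
    have e3 : γ ((Z.L ^ n) (τ (a x ⊗ₜ[F] a x))) = τ (a x ⊗ₜ[F] a x) := by
      have := hlow (i + i) (by omega) _ e2
      rw [if_pos ⟨i, rfl⟩] at this
      exact this
    have e : t (τ (x ⊗ₜ x)) = γ ((Z.L ^ n) (γ ((Z.L ^ n) (A (τ (x ⊗ₜ x)))))) := by
      rw [ht]; simp only [Module.End.mul_apply]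
    rw [e, e1, e3, e3]
  have hpow : ∀ m : ℕ, ∀ x : X.H, X.π i x = x →
      (t ^ m) (τ (x ⊗ₜ x)) = τ ((a ^ m) x ⊗ₜ (a ^ m) x) := by
    intro m
    induction m with
    | zero => intro x _; simp
    | succ m ih =>
      intro x hx
      rw [pow_succ, Module.End.mul_apply, hstep x hx, ih _ (X.corr_homog ha (by ring) hx),
        pow_succ, Module.End.mul_apply]
  have h1 := hpow k x hx
  rw [hk, LinearMap.zero_apply] at h1
  have h2 : (a ^ k) x ⊗ₜ[F] (a ^ k) x = 0 := by
    apply τ.injective
    rw [← h1, map_zero]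
  exact tmul_self_eq_zero h2

end Pool.Agent.Helper29.CPB
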