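import Pool.Agent.Helper29.CPB.Graded
import Pool.Agent.Helper29.CPB.Idem

/-!
# The trace trick
-/

namespace Pool.Agent.Helper29.CPB

open TensorProduct

universe u v

variable {F : Type u} [Field F] [CharZero F]

namespace TT

variable (X : Variety.{u, v} F)

lemma sum_π_apply (x : X.H) : ∑ i ∈ Finset.Icc (0 : ℤ) (2 * X.dim), X.π i x = x := by
  rw [← LinearMap.sum_apply, X.π_sum]; rfl

lemma ext_homog_tmul {M : Type*} [AddCommGroup M] [Module F M]
    {f g : (X.H ⊗[F] X.H) →ₗ[F] M}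
    (h : ∀ (a b : ℤ) (x y : X.H), X.π a x = x → X.π b y = y → f (x ⊗ₜ y) = g (x ⊗ₜ y)) :
    f = g := by
  apply TensorProduct.ext'
  intro x y
  have hs : x ⊗ₜ[F] y = ∑ i ∈ Finset.Icc (0 : ℤ) (2 * X.dim),
      ∑ j ∈ Finset.Icc (0 : ℤ) (2 * X.dim), X.π i x ⊗ₜ[F] X.π j y := by
    conv_lhs => rw [← sum_π_apply X x, TensorProduct.sum_tmul]
    refine Finset.sum_congr rfl fun i _ => ?_
    conv_lhs => rw [← sum_π_apply X y, TensorProduct.tmul_sum]
  rw [hs, map_sum, map_sum]
  refine Finset.sum_congr rfl fun i _ => ?_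
  rw [map_sum, map_sum]
  refine Finset.sum_congr rfl fun j _ => ?_
  exact h i j _ _ (X.π_apply_idem i x) (X.π_apply_idem j y)

omit [CharZero F] in
lemma tmul_self_eq_zero {V : Type*} [AddCommGroup V] [Module F V] {x : V}
    (h : x ⊗ₜ[F] x = 0) : x = 0 := by
  by_contra hx
  obtain ⟨φ, hφ⟩ := Module.Projective.exists_dual_ne_zero F hx
  have h1 := congrArg ((TensorProduct.lid F F).toLinearMap ∘ₗ TensorProduct.map φ φ) h
  rw [map_zero] at h1
  simp only [LinearMap.coe_comp, Function.comp_apply, TensorProduct.map_tmul,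
    LinearEquiv.coe_coe, TensorProduct.lid_tmul, smul_eq_mul] at h1
  exact hφ (by simpa using h1)

/-- the support condition -/
def Supp (i : ℕ) (R : Module.End F X.H) : Prop :=
  ∀ j : ℤ, ¬ (Even (j - i) ∧ (i : ℤ) ≤ j ∧ j ≤ 2 * X.dim - i) → R * X.π j = 0

variable {X}

lemma supp_apply {i : ℕ} {R : Module.End F X.H} (h : Supp X i R) {j : ℤ}
    (hj : ¬ (Even (j - i) ∧ (i : ℤ) ≤ j ∧ j ≤ 2 * X.dim - i)) {x : X.H} (hx : X.π j x = x) :
    R x = 0 := by
  rw [← hx, ← Module.End.mul_apply, h j hj, LinearMap.zero_apply]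

lemma comm_pow {R : Module.End F X.H} (hL : R * X.L = X.L * R) (m : ℕ) :
    R * X.L ^ m = X.L ^ m * R := (Commute.pow_right (show Commute R X.L from hL) m).eq

lemma RL_supp {i : ℕ} {R : Module.End F X.H} (h : Supp X i R) (hL : R * X.L = X.L * R)
    (m : ℕ) {a : ℤ} {x : X.H} (hx : X.π a x = x) :
    (Even (a - i) ∧ (i : ℤ) ≤ a ∧ a + 2 * m ≤ 2 * X.dim - i) ∨ (R * X.L ^ m) x = 0 := by
  by_cases h1 : Even (a - i) ∧ (i : ℤ) ≤ a ∧ a ≤ 2 * X.dim - i
  · by_cases h2 : a + 2 * m ≤ 2 * X.dim - i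
    · exact Or.inl ⟨h1.1, h1.2.1, h2⟩
    · right
      rw [Module.End.mul_apply]
      exact supp_apply h (j := a + 2 * m) (fun hh => h2 hh.2.2)
        (X.corr_homog (X.Lpow_corr m) rfl hx)
  · right
    rw [comm_pow hL, Module.End.mul_apply, supp_apply h h1 hx, map_zero]

lemma RL_zero {i w : ℕ} {R : Module.End F X.H} (h : Supp X i R) (hL : R * X.L = X.L * R)
    (hi : i + w = X.dim) {m : ℕ} (hm : w + 1 ≤ m) : R * X.L ^ m = 0 := by
  apply X.ext_homog
  intro a x hx
  rcases RL_supp h hL m hx with h1 | h1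
  · omega
  · rw [h1]; rfl

variable {Z : Variety.{u, v} F} {τ : (X.H ⊗[F] X.H) ≃ₗ[F] Z.H}

lemma conj_apply' (g : Module.End F Z.H) (t : X.H ⊗[F] X.H) :
    τ.symm.conj g t = τ.symm (g (τ t)) := by
  rw [LinearEquiv.conj_apply_apply, LinearEquiv.symm_symm]

lemma τ_conj_apply (g : Module.End F Z.H) (t : X.H ⊗[F] X.H) :
    τ (τ.symm.conj g t) = g (τ t) := by
  rw [conj_apply', LinearEquiv.apply_symm_apply]

lemma conj_mul' (f g : Module.End F Z.H) :
    τ.symm.conj (f * g) = τ.symm.conj f * τ.symm.conj g := by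
  ext1
  ext x y
  simp [conj_apply']

lemma conj_one' : τ.symm.conj (1 : Module.End F Z.H) = 1 := by
  ext1
  ext x y
  simp [conj_apply']

lemma conj_pow' (f : Module.End F Z.H) (n : ℕ) :
    τ.symm.conj (f ^ n) = (τ.symm.conj f) ^ n := by
  induction n with
  | zero => rw [pow_zero, pow_zero, conj_one']
  | succ n ih => rw [pow_succ, pow_succ, conj_mul', ih]

lemma conj_conj (g : Module.End F (X.H ⊗[F] X.H)) : τ.symm.conj (τ.conj g) = g := by
  ext1
  ext x y
  simp

lemma conj_L (hsq : IsSquare X Z τ) :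
    τ.symm.conj Z.L = TensorProduct.map X.L 1 + TensorProduct.map 1 X.L := by
  apply TensorProduct.ext'
  intro x y
  rw [conj_apply', hsq.polar, LinearEquiv.symm_apply_apply, LinearMap.add_apply,
    TensorProduct.map_tmul, TensorProduct.map_tmul]
  rfl

lemma map_mul' (a b c d : Module.End F X.H) :
    (TensorProduct.map a b : Module.End F (X.H ⊗[F] X.H)) * TensorProduct.map c d =
      TensorProduct.map (a * c) (b * d) :=
  (TensorProduct.map_mul a c b d).symm

/-- the power of the Lefschetz operator of the square, cut down by `R ⊗ R` -/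
lemma cut_pow (hsq : IsSquare X Z τ) {i k : ℕ} (hi : i + (k + 1) = X.dim)
    {R : Module.End F X.H} (h : Supp X i R) (hL : R * X.L = X.L * R) :
    (TensorProduct.map R R : Module.End F (X.H ⊗[F] X.H)) * (τ.symm.conj Z.L) ^ (2 * k + 1) =
      (((2 * k + 1).choose k : ℕ) : F) •
        (TensorProduct.map (R * X.L ^ (k + 1)) (R * X.L ^ k) +
          TensorProduct.map (R * X.L ^ k) (R * X.L ^ (k + 1))) := by
  have hc : Commute (TensorProduct.map X.L 1 : Module.End F (X.H ⊗[F] X.H))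
      (TensorProduct.map 1 X.L) := by
    show _ * _ = _ * _
    rw [map_mul', map_mul', mul_one, one_mul]
  rw [conj_L hsq, hc.add_pow, Finset.mul_sum]
  have hterm : ∀ m ∈ Finset.range (2 * k + 1 + 1),
      (TensorProduct.map R R : Module.End F (X.H ⊗[F] X.H)) *
        ((TensorProduct.map X.L 1) ^ m * (TensorProduct.map 1 X.L) ^ (2 * k + 1 - m) *
          (((2 * k + 1).choose m : ℕ) : Module.End F (X.H ⊗[F] X.H))) =
      (((2 * k + 1).choose m : ℕ) : F) •
        TensorProduct.map (R * X.L ^ m) (R * X.L ^ (2 * k + 1 - m)) := by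
    intro m _
    rw [TensorProduct.map_pow, TensorProduct.map_pow, one_pow, one_pow, map_mul', mul_one,
      one_mul, ← mul_assoc, map_mul', (Nat.cast_commute _ _).eq.symm, ← nsmul_eq_mul,
      Nat.cast_smul_eq_nsmul]
  rw [Finset.sum_congr rfl hterm]
  rw [Finset.sum_eq_add_of_mem (k + 1) k (by simp; omega) (by simp; omega) (by omega)]
  · rw [smul_add]
    congr 1
    · have e1 : 2 * k + 1 - (k + 1) = k := by omega
      rw [Nat.choose_symm_half, e1]
    · have e1 : 2 * k + 1 - k = k + 1 := by omega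
      rw [e1]
  · intro m hm hne
    rcases Nat.lt_or_ge m k with hlt | hge
    · have : R * X.L ^ (2 * k + 1 - m) = 0 := RL_zero h hL hi (by omega)
      rw [this, TensorProduct.map_zero_right, smul_zero]
    · have : R * X.L ^ m = 0 := RL_zero h hL hi (by omega)
      rw [this, TensorProduct.map_zero_left, smul_zero]

omit [CharZero F] in
lemma ptr₂_smul {V : Type v} [AddCommGroup V] [Module F V] [FiniteDimensional F V] (c : F)
    (γ : Module.End F (V ⊗[F] V)) : ptr₂ (c • γ) = c • ptr₂ γ := by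
  simp [ptr₂]

omit [CharZero F] in
lemma ptr₁_smul {V : Type v} [AddCommGroup V] [Module F V] [FiniteDimensional F V] (c : F)
    (γ : Module.End F (V ⊗[F] V)) : ptr₁ (c • γ) = c • ptr₁ γ := by
  simp [ptr₁]

/-- an operator cut down by `R` has the parity of `i` -/
lemma RL_sgn {i : ℕ} {R : Module.End F X.H} (h : Supp X i R) (hL : R * X.L = X.L * R) (m : ℕ) :
    R * X.L ^ m = ((-1 : F) ^ i) • (R * X.L ^ m * X.sgn) := by
  apply X.ext_homog
  intro a x hx
  rw [LinearMap.smul_apply, Module.End.mul_apply _ X.sgn, X.sgn_apply hx, map_smul, smul_smul]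
  rcases RL_supp h hL m hx with ⟨⟨c, hc⟩, h1, _⟩ | h1
  · have ha : a.natAbs = i + 2 * c.toNat := by omega
    rw [ha, pow_add, pow_mul, neg_one_sq, one_pow, mul_one, ← pow_add, ← two_mul, pow_mul,
      neg_one_sq, one_pow, one_smul]
  · rw [h1, smul_zero]

lemma neg_one_pow_smul_mem {r : ℤ} {f : Module.End F X.H} (hf : f ∈ X.corr r) (i : ℕ) :
    ((-1 : F) ^ i) • f ∈ X.corr r := by
  rcases neg_one_pow_eq_or F i with h | h
  · rw [h, one_smul]; exact hf
  · rw [h, neg_one_smul]; exact (X.corr r).neg_mem hf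

/-! ### trace formulas for contractions -/

section ptr

variable {V : Type v} [AddCommGroup V] [Module F V] [FiniteDimensional F V]

omit [CharZero F] in
lemma trace_ptr₂' (γ : Module.End F (V ⊗[F] V)) (v : Module.End F V) :
    LinearMap.trace F V (ptr₂ γ * v) =
      LinearMap.trace F (V ⊗[F] V) (γ * TensorProduct.map v 1) := by
  obtain ⟨t, rfl⟩ := (homTensorHomEquiv F V V V V).surjective γ
  unfold ptr₂
  rw [LinearEquiv.symm_apply_apply]
  induction t using TensorProduct.induction_on with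
  | zero => simp
  | tmul f g =>
    have e : (homTensorHomEquiv F V V V V) (f ⊗ₜ[F] g) =
        (TensorProduct.map f g : Module.End F (V ⊗[F] V)) := by
      simp [homTensorHomEquiv_apply]
    rw [e, ← TensorProduct.map_mul, mul_one, LinearMap.trace_tensorProduct']
    simp [mul_comm]
  | add a b ha hb =>
    simp only [map_add, add_mul] at ha hb ⊢
    rw [ha, hb]

omit [CharZero F] in
lemma trace_ptr₁' (γ : Module.End F (V ⊗[F] V)) (v : Module.End F V) :
    LinearMap.trace F V (ptr₁ γ * v) =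
      LinearMap.trace F (V ⊗[F] V) (γ * TensorProduct.map 1 v) := by
  obtain ⟨t, rfl⟩ := (homTensorHomEquiv F V V V V).surjective γ
  unfold ptr₁
  rw [LinearEquiv.symm_apply_apply]
  induction t using TensorProduct.induction_on with
  | zero => simp
  | tmul f g =>
    have e : (homTensorHomEquiv F V V V V) (f ⊗ₜ[F] g) =
        (TensorProduct.map f g : Module.End F (V ⊗[F] V)) := by
      simp [homTensorHomEquiv_apply]
    rw [e, ← TensorProduct.map_mul, mul_one, LinearMap.trace_tensorProduct']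
    simp
  | add a b ha hb =>
    simp only [map_add, add_mul] at ha hb ⊢
    rw [ha, hb]

end ptr

end TT

open TT

/-- **The trace trick** (with the trace formulas for contractions as hypotheses). -/
theorem trace_trick_aux {X Z : Variety.{u, v} F} {τ : (X.H ⊗[F] X.H) ≃ₗ[F] Z.H}
    (htr₂ : ∀ (γ : Module.End F (X.H ⊗[F] X.H)) (v : Module.End F X.H),
      LinearMap.trace F X.H (ptr₂ γ * v) =
        LinearMap.trace F (X.H ⊗[F] X.H) (γ * TensorProduct.map v 1))
    (htr₁ : ∀ (γ : Module.End F (X.H ⊗[F] X.H)) (v : Module.End F X.H),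
      LinearMap.trace F X.H (ptr₁ γ * v) =
        LinearMap.trace F (X.H ⊗[F] X.H) (γ * TensorProduct.map 1 v))
    (hsq : IsSquare X Z τ) (i w : ℕ) (hi : i + w = X.dim) (hw : 1 ≤ w)
    (R : Module.End F X.H) (hR : R ∈ X.corr 0) (hid : R * R = R) (hL : R * X.L = X.L * R)
    (supp : ∀ j : ℤ, ¬ (Even (j - i) ∧ (i : ℤ) ≤ j ∧ j ≤ 2 * X.dim - i) → R * X.π j = 0)
    (hnil : ∀ θ ∈ X.corr (-w), LinearMap.trace F X.H (R * θ * R * X.L ^ w) = 0)
    (hhalf : Half Z (2 * w - 1)) : ∀ x, X.π i x = x → R x = 0 := by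
  obtain ⟨k, rfl⟩ : ∃ k, w = k + 1 := ⟨w - 1, by omega⟩
  have hs : 2 * (k + 1) - 1 = 2 * k + 1 := by omega
  rw [hs] at hhalf
  obtain ⟨γ, hγ, hlow, hhigh⟩ := hhalf
  have hsupp : Supp X i R := supp
  have hdim := hsq.dim
  -- the operators on the tensor square
  set ρ : Module.End F (X.H ⊗[F] X.H) := TensorProduct.map R R with hρ
  set M : Module.End F (X.H ⊗[F] X.H) := (τ.symm.conj Z.L) ^ (2 * k + 1) with hM
  set g : Module.End F (X.H ⊗[F] X.H) := τ.symm.conj γ with hg
  set c : F := (((2 * k + 1).choose k : ℕ) : F) with hc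
  have hT := cut_pow hsq hi hsupp hL
  rw [← hρ, ← hM, ← hc] at hT
  have hρρ : ρ * ρ = ρ := by rw [hρ, map_mul', hid]
  have hρM : ρ * M = M * ρ := by
    have h1 : Commute ρ (τ.symm.conj Z.L) := by
      show _ * _ = _ * _
      rw [conj_L hsq, hρ, mul_add, add_mul, map_mul', map_mul', map_mul', map_mul', hL, one_mul,
        mul_one]
    exact (h1.pow_right _).eq
  set T : Module.End F (X.H ⊗[F] X.H) := ρ * M with hTdef
  have hρT : ρ * T = T := by rw [hTdef, ← mul_assoc, hρρ]
  have hTρ : T * ρ = T := by rw [hTdef, mul_assoc, ← hρM, ← mul_assoc, hρρ]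
  -- homogeneity
  have hRh : ∀ {a : ℤ} {x : X.H}, X.π a x = x → X.π a (R x) = R x := by
    intro a x hx
    exact X.corr_homog hR (by ring) hx
  have hMτ : ∀ t, τ (M t) = (Z.L ^ (2 * k + 1)) (τ t) := by
    intro t
    rw [hM, ← conj_pow', τ_conj_apply]
  have hgτ : ∀ t, τ (g t) = γ (τ t) := fun t => by rw [hg, τ_conj_apply]
  -- low degree
  have hlow' : ∀ (a b : ℤ) (x y : X.H), X.π a x = x → X.π b y = y → a + b = 2 * i →
      g (M (x ⊗ₜ y)) = x ⊗ₜ y := by
    intro a b x y hx hy hab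
    apply τ.injective
    rw [hgτ, hMτ]
    apply hlow (a + b) (by rw [hab]; exact even_two_mul _) (by push_cast; omega)
    exact hsq.grade a b x y hx hy
  -- high degree
  have hhigh' : ∀ (a b : ℤ) (x y : X.H), X.π a x = x → X.π b y = y → a + b = 2 * i + 2 →
      M (g (T (x ⊗ₜ y))) = T (x ⊗ₜ y) := by
    intro a b x y hx hy hab
    apply τ.injective
    rw [hMτ, hgτ]
    have h1 : T (x ⊗ₜ y) = M (R x ⊗ₜ R y) := by
      rw [hρM, Module.End.mul_apply, hρ, TensorProduct.map_tmul]
    have h2 : Z.π (a + b) (τ (R x ⊗ₜ R y)) = τ (R x ⊗ₜ R y) :=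
      hsq.grade a b _ _ (hRh hx) (hRh hy)
    have h3 : Z.π (a + b + 2 * ((2 * k + 1 : ℕ) : ℤ)) (τ (M (R x ⊗ₜ R y))) =
        τ (M (R x ⊗ₜ R y)) := by
      rw [hMτ]
      exact Z.corr_homog (Z.Lpow_corr _) rfl h2
    rw [h1]
    refine hhigh (a + b + 2 * ((2 * k + 1 : ℕ) : ℤ)) ?_ ?_ _ h3
    · rw [hab]
      exact ⟨i + 1 + ((2 * k + 1 : ℕ) : ℤ), by ring⟩
    · push_cast
      omega
  -- the key identity
  have key : T * g * T = T := by
    apply ext_homog_tmul X
    intro a b x y hx hy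
    rw [Module.End.mul_apply, Module.End.mul_apply]
    by_cases h1 : a + b = 2 * i
    · have h2 : g (T (x ⊗ₜ y)) = ρ (x ⊗ₜ y) := by
        rw [hρM, Module.End.mul_apply, hρ, TensorProduct.map_tmul]
        exact hlow' a b _ _ (hRh hx) (hRh hy) h1
      rw [h2, ← Module.End.mul_apply, hTρ]
    by_cases h2 : a + b = 2 * i + 2
    · have h3 : T (g (T (x ⊗ₜ y))) = ρ (M (g (T (x ⊗ₜ y)))) := by
        conv_lhs => rw [hTdef, Module.End.mul_apply]
      rw [h3, hhigh' a b x y hx hy h2, ← Module.End.mul_apply, hρT]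
    · have h3 : T (x ⊗ₜ y) = 0 := by
        rw [hT, LinearMap.smul_apply, LinearMap.add_apply, TensorProduct.map_tmul,
          TensorProduct.map_tmul]
        have e1 : (R * X.L ^ (k + 1)) x ⊗ₜ[F] (R * X.L ^ k) y = 0 := by
          rcases RL_supp hsupp hL (k + 1) hx with ⟨_, h4, h5⟩ | h4
          · rcases RL_supp hsupp hL k hy with ⟨⟨q, hq⟩, h6, h7⟩ | h6
            · exfalso
              push_cast at h5 h7
              omega
            · rw [h6, TensorProduct.tmul_zero]
          · rw [h4, TensorProduct.zero_tmul]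
        have e2 : (R * X.L ^ k) x ⊗ₜ[F] (R * X.L ^ (k + 1)) y = 0 := by
          rcases RL_supp hsupp hL (k + 1) hy with ⟨_, h4, h5⟩ | h4
          · rcases RL_supp hsupp hL k hx with ⟨⟨q, hq⟩, h6, h7⟩ | h6
            · exfalso
              push_cast at h5 h7
              omega
            · rw [h6, TensorProduct.zero_tmul]
          · rw [h4, TensorProduct.tmul_zero]
        rw [e1, e2, add_zero, smul_zero]
      rw [h3, map_zero, map_zero]
  -- the idempotent
  have hidem : (ρ * g * T) * (ρ * g * T) = ρ * g * T := by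
    have : (ρ * g * T) * (ρ * g * T) = ρ * g * ((T * ρ) * g * T) := by
      simp only [mul_assoc]
    rw [this, hTρ, key]
  -- algebraicity of the contractions
  have halg : ∀ (p q : ℤ) (f h : Module.End F X.H), f ∈ X.corr p → h ∈ X.corr q →
      ∃ δ ∈ Z.corr (-((2 * k + 1 : ℕ) : ℤ) + (p + q)),
        τ.symm.conj δ = ρ * g * TensorProduct.map f h := by
    intro p q f h hf hh
    refine ⟨τ.conj ρ * γ * τ.conj (TensorProduct.map f h), ?_, ?_⟩
    · have h1 := hsq.prod 0 0 R R hR hR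
      have h2 := hsq.prod p q f h hf hh
      exact Z.corr_mul' (by ring) (Z.corr_mul _ _ _ _ h1 hγ) h2
    · rw [conj_mul', conj_mul', conj_conj, conj_conj]
  have hRL : ∀ m : ℕ, R * X.L ^ m ∈ X.corr m := fun m =>
    X.corr_mul' (by ring) hR (X.Lpow_corr m)
  have hcyc : ∀ θ ∈ X.corr (-((k + 1 : ℕ) : ℤ)),
      LinearMap.trace F X.H (θ * (R * X.L ^ (k + 1))) = 0 := by
    intro θ hθ
    have h1 := hnil θ hθ
    have h2 : R * θ * R * X.L ^ (k + 1) = R * (θ * (R * X.L ^ (k + 1))) := by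
      simp only [mul_assoc]
    rw [h2, LinearMap.trace_mul_comm] at h1
    have h3 : θ * (R * X.L ^ (k + 1)) * R = θ * (R * X.L ^ (k + 1)) := by
      rw [mul_assoc, mul_assoc, ← comm_pow hL, ← mul_assoc R R, hid]
    rw [h3] at h1
    exact h1
  have htrace : LinearMap.trace F (X.H ⊗[F] X.H) (ρ * g * T) = 0 := by
    rw [hT, mul_smul_comm, map_smul, mul_add, map_add]
    have t1 : LinearMap.trace F (X.H ⊗[F] X.H)
        (ρ * g * TensorProduct.map (R * X.L ^ (k + 1)) (R * X.L ^ k)) = 0 := by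
      have h1 : (TensorProduct.map (R * X.L ^ (k + 1)) (R * X.L ^ k) :
          Module.End F (X.H ⊗[F] X.H)) = TensorProduct.map 1 (R * X.L ^ k) *
          TensorProduct.map (R * X.L ^ (k + 1)) 1 := by
        rw [map_mul', one_mul, mul_one]
      rw [h1, ← mul_assoc, ← htr₂]
      apply hcyc
      obtain ⟨δ, hδ, hδ'⟩ := halg 0 k 1 (R * X.L ^ k) X.corr_one (hRL k)
      have h2 := hsq.contr₂ _ δ hδ
      rw [hδ', mul_assoc (ρ * g), map_mul', one_mul] at h2
      have h3 : (TensorProduct.map 1 (R * X.L ^ k) : Module.End F (X.H ⊗[F] X.H)) =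
          ((-1 : F) ^ i) • TensorProduct.map 1 (R * X.L ^ k * X.sgn) := by
        conv_lhs => rw [RL_sgn hsupp hL k, TensorProduct.map_smul_right]
      rw [h3, mul_smul_comm, ptr₂_smul]
      apply neg_one_pow_smul_mem
      convert h2 using 2
      push_cast
      ring
    have t2 : LinearMap.trace F (X.H ⊗[F] X.H)
        (ρ * g * TensorProduct.map (R * X.L ^ k) (R * X.L ^ (k + 1))) = 0 := by
      have h1 : (TensorProduct.map (R * X.L ^ k) (R * X.L ^ (k + 1)) :
          Module.End F (X.H ⊗[F] X.H)) = TensorProduct.map (R * X.L ^ k) 1 *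
          TensorProduct.map 1 (R * X.L ^ (k + 1)) := by
        rw [map_mul', one_mul, mul_one]
      rw [h1, ← mul_assoc, ← htr₁]
      apply hcyc
      obtain ⟨δ, hδ, hδ'⟩ := halg k 0 (R * X.L ^ k) 1 (hRL k) X.corr_one
      have h2 := hsq.contr₁ _ δ hδ
      rw [hδ', mul_assoc (ρ * g), map_mul', one_mul] at h2
      have h3 : (TensorProduct.map (R * X.L ^ k) 1 : Module.End F (X.H ⊗[F] X.H)) =
          ((-1 : F) ^ i) • TensorProduct.map (R * X.L ^ k * X.sgn) 1 := by
        conv_lhs => rw [RL_sgn hsupp hL k, TensorProduct.map_smul_left]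
      rw [h3, mul_smul_comm, ptr₁_smul]
      apply neg_one_pow_smul_mem
      convert h2 using 2
      push_cast
      ring
    rw [t1, t2, add_zero, smul_zero]
  -- conclusion
  have hzero := idem_eq_zero_of_trace _ hidem htrace
  have hT0 : T = 0 := by
    have h1 : T = T * (ρ * g * T) := by
      have : T * (ρ * g * T) = (T * ρ) * g * T := by simp only [mul_assoc]
      rw [this, hTρ, key]
    rw [h1, hzero, mul_zero]
  intro x hx
  apply tmul_self_eq_zero (F := F)
  have h1 : M (R x ⊗ₜ R x) = 0 := by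
    have h2 : T (x ⊗ₜ x) = M (R x ⊗ₜ R x) := by
      conv_lhs => rw [hρM, Module.End.mul_apply, hρ, TensorProduct.map_tmul]
    rw [← h2, hT0, LinearMap.zero_apply]
  have h2 := hlow' i i (R x) (R x) (hRh hx) (hRh hx) (by ring)
  rw [h1, map_zero] at h2
  exact h2.symm

/-- **The trace trick.** -/
theorem trace_trick {X Z : Variety.{u, v} F} {τ : (X.H ⊗[F] X.H) ≃ₗ[F] Z.H}
    (hsq : IsSquare X Z τ) (i w : ℕ) (hi : i + w = X.dim) (hw : 1 ≤ w)
    (R : Module.End F X.H) (hR : R ∈ X.corr 0) (hid : R * R = R) (hL : R * X.L = X.L * R)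
    (supp : ∀ j : ℤ, ¬ (Even (j - i) ∧ (i : ℤ) ≤ j ∧ j ≤ 2 * X.dim - i) → R * X.π j = 0)
    (hnil : ∀ θ ∈ X.corr (-w), LinearMap.trace F X.H (R * θ * R * X.L ^ w) = 0)
    (hhalf : Half Z (2 * w - 1)) : ∀ x, X.π i x = x → R x = 0 :=
  trace_trick_aux trace_ptr₂' trace_ptr₁' hsq i w hi hw R hR hid hL supp hnil hhalf

end Pool.Agent.Helper29.CPB
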