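import Pool.Agent.Helper76.CPB.TraceTrick

/-!
# The trace trick, both parities at once
-/

namespace Pool.Agent.Helper29.CPB

open TensorProduct

universe u v

variable {F : Type u} [Field F] [CharZero F]

/-- The input from a generic section of odd dimension `Z.dim - s`: an algebraic operator inverse to
`L^s` on the even cohomology in the outer degrees, and with `γ L^s = 0` on the odd cohomology in
degrees at most the dimension of the section. -/
def Half' (Z : Variety.{u, v} F) (s : ℕ) : Prop :=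
  ∃ γ ∈ Z.corr (-s),
    (∀ j : ℤ, Even j → j + s + 1 ≤ Z.dim → ∀ z, Z.π j z = z → γ ((Z.L ^ s) z) = z) ∧
    (∀ j : ℤ, Even j → (Z.dim : ℤ) + s + 1 ≤ j → ∀ z, Z.π j z = z → (Z.L ^ s) (γ z) = z) ∧
    (∀ j : ℤ, Odd j → j + s ≤ Z.dim → ∀ z, Z.π j z = z → γ ((Z.L ^ s) z) = 0)

namespace TT

variable (X : Variety.{u, v} F)

/-- the support condition without parity -/
def Supp' (i : ℕ) (R : Module.End F X.H) : Prop :=
  ∀ j : ℤ, ¬ ((i : ℤ) ≤ j ∧ j ≤ 2 * X.dim - i) → R * X.π j = 0

variable {X}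

lemma supp_apply' {i : ℕ} {R : Module.End F X.H} (h : Supp' X i R) {j : ℤ}
    (hj : ¬ ((i : ℤ) ≤ j ∧ j ≤ 2 * X.dim - i)) {x : X.H} (hx : X.π j x = x) :
    R x = 0 := by
  rw [← hx, ← Module.End.mul_apply, h j hj, LinearMap.zero_apply]

lemma RL_supp' {i : ℕ} {R : Module.End F X.H} (h : Supp' X i R) (hL : R * X.L = X.L * R)
    (m : ℕ) {a : ℤ} {x : X.H} (hx : X.π a x = x) :
    ((i : ℤ) ≤ a ∧ a + 2 * m ≤ 2 * X.dim - i) ∨ (R * X.L ^ m) x = 0 := by
  by_cases h1 : (i : ℤ) ≤ a ∧ a ≤ 2 * X.dim - i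
  · by_cases h2 : a + 2 * m ≤ 2 * X.dim - i
    · exact Or.inl ⟨h1.1, h2⟩
    · right
      rw [Module.End.mul_apply]
      exact supp_apply' h (j := a + 2 * m) (fun hh => h2 hh.2)
        (X.corr_homog (X.Lpow_corr m) rfl hx)
  · right
    rw [comm_pow hL, Module.End.mul_apply, supp_apply' h h1 hx, map_zero]

lemma RL_zero' {i w : ℕ} {R : Module.End F X.H} (h : Supp' X i R) (hL : R * X.L = X.L * R)
    (hi : i + w = X.dim) {m : ℕ} (hm : w + 1 ≤ m) : R * X.L ^ m = 0 := by
  apply X.ext_homog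
  intro a x hx
  rcases RL_supp' h hL m hx with h1 | h1
  · omega
  · rw [h1]; rfl

variable {Z : Variety.{u, v} F} {τ : (X.H ⊗[F] X.H) ≃ₗ[F] Z.H}

/-- the power of the Lefschetz operator of the square, cut down by `R ⊗ R` -/
lemma cut_pow' (hsq : IsSquare X Z τ) {i k : ℕ} (hi : i + (k + 1) = X.dim)
    {R : Module.End F X.H} (h : Supp' X i R) (hL : R * X.L = X.L * R) :
    (TensorProduct.map R R : Module.End F (X.H ⊗[F] X.H)) * (τ.symm.conj Z.L) ^ (2 * k + 1) =
      (((2 * k + 1).choose k : ℕ) : F) •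
        (TensorProduct.map (R * X.L ^ (k + 1)) (R * X.L ^ k) +
          TensorProduct.map (R * X.L ^ k) (R * X.L ^ (k + 1))) := by
  have hc : Commute (TensorProduct.map X.L 1 : Module.End F (X.H ⊗[F] X.H))
      (TensorProduct.map 1 X.L) := by
    show _ * _ = _ * _
    rw [map_mul', map_mul', mul_one, one_mul]
  rw [conj_L hsq, hc.add_pow, Finset.mul_sum]
  have hterm : ∀ m ∈ Finset.range (2 * k + 1 + 1),
      (TensorProduct.map R R : Module.End F (X.H ⊗[F] X.H)) *
        ((TensorProduct.map X.L 1) ^ m * (TensorProduct.map 1 X.L) ^ (2 * k + 1 - m) *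
          (((2 * k + 1).choose m : ℕ) : Module.End F (X.H ⊗[F] X.H))) =
      (((2 * k + 1).choose m : ℕ) : F) •
        TensorProduct.map (R * X.L ^ m) (R * X.L ^ (2 * k + 1 - m)) := by
    intro m _
    rw [TensorProduct.map_pow, TensorProduct.map_pow, one_pow, one_pow, map_mul', mul_one,
      one_mul, ← mul_assoc, map_mul', (Nat.cast_commute _ _).eq.symm, ← nsmul_eq_mul,
      Nat.cast_smul_eq_nsmul]
  rw [Finset.sum_congr rfl hterm]
  rw [Finset.sum_eq_add_of_mem (k + 1) k (by simp; omega) (by simp; omega) (by omega)]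
  · rw [smul_add]
    congr 1
    · have e1 : 2 * k + 1 - (k + 1) = k := by omega
      rw [Nat.choose_symm_half, e1]
    · have e1 : 2 * k + 1 - k = k + 1 := by omega
      rw [e1]
  · intro m hm hne
    rcases Nat.lt_or_ge m k with hlt | hge
    · have : R * X.L ^ (2 * k + 1 - m) = 0 := RL_zero' h hL hi (by omega)
      rw [this, TensorProduct.map_zero_right, smul_zero]
    · have : R * X.L ^ m = 0 := RL_zero' h hL hi (by omega)
      rw [this, TensorProduct.map_zero_left, smul_zero]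

/-- `R L^w` lives on degree `i` only, hence has the parity of `i` -/
lemma RL_sgn' {i w : ℕ} {R : Module.End F X.H} (h : Supp' X i R) (hL : R * X.L = X.L * R)
    (hi : i + w = X.dim) : R * X.L ^ w * X.sgn = ((-1 : F) ^ i) • (R * X.L ^ w) := by
  apply X.ext_homog
  intro a x hx
  rw [LinearMap.smul_apply, Module.End.mul_apply _ X.sgn, X.sgn_apply hx, map_smul]
  rcases RL_supp' h hL w hx with ⟨h1, h2⟩ | h1
  · have ha : a.natAbs = i := by omega
    rw [ha]
  · rw [h1, smul_zero, smul_zero]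

end TT

open TT

/-- **The trace trick**, in one degree `i`, both parities present: if the algebraic idempotent `R`
commutes with `L`, lives in degrees `i..2 dim - i` and `R L^w` is negligible on `H^i`, then the input
from the generic section of codimension `2w-1` of the square kills `R H^i`. -/
theorem trace_trick' {X Z : Variety.{u, v} F} {τ : (X.H ⊗[F] X.H) ≃ₗ[F] Z.H}
    (hsq : IsSquare X Z τ) (i w : ℕ) (hi : i + w = X.dim) (hw : 1 ≤ w)
    (R : Module.End F X.H) (hR : R ∈ X.corr 0) (hid : R * R = R) (hL : R * X.L = X.L * R)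
    (supp : ∀ j : ℤ, ¬ ((i : ℤ) ≤ j ∧ j ≤ 2 * X.dim - i) → R * X.π j = 0)
    (hnil : ∀ θ ∈ X.corr (-w), LinearMap.trace F X.H (R * θ * R * X.L ^ w) = 0)
    (hhalf : Half' Z (2 * w - 1)) : ∀ x, X.π i x = x → R x = 0 := by
  obtain ⟨k, rfl⟩ : ∃ k, w = k + 1 := ⟨w - 1, by omega⟩
  have hs : 2 * (k + 1) - 1 = 2 * k + 1 := by omega
  rw [hs] at hhalf
  obtain ⟨γ, hγ, hlow, hhigh, hodd⟩ := hhalf
  have hsupp : Supp' X i R := supp
  have hdim := hsq.dim
  -- the operators on the tensor square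
  set ρ : Module.End F (X.H ⊗[F] X.H) := TensorProduct.map R R with hρ
  set M : Module.End F (X.H ⊗[F] X.H) := (τ.symm.conj Z.L) ^ (2 * k + 1) with hM
  set g : Module.End F (X.H ⊗[F] X.H) := τ.symm.conj γ with hg
  set c : F := (((2 * k + 1).choose k : ℕ) : F) with hc
  set σ : Module.End F (X.H ⊗[F] X.H) := TensorProduct.map X.sgn X.sgn with hσ
  have hT := cut_pow' hsq hi hsupp hL
  rw [← hρ, ← hM, ← hc] at hT
  have hρρ : ρ * ρ = ρ := by rw [hρ, map_mul', hid]
  have hρM : ρ * M = M * ρ := by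
    have h1 : Commute ρ (τ.symm.conj Z.L) := by
      show _ * _ = _ * _
      rw [conj_L hsq, hρ, mul_add, add_mul, map_mul', map_mul', map_mul', map_mul', hL, one_mul,
        mul_one]
    exact (h1.pow_right _).eq
  set T : Module.End F (X.H ⊗[F] X.H) := ρ * M with hTdef
  have hρT : ρ * T = T := by rw [hTdef, ← mul_assoc, hρρ]
  have hTρ : T * ρ = T := by rw [hTdef, mul_assoc, ← hρM, ← mul_assoc, hρρ]
  -- homogeneity
  have hRh : ∀ {a : ℤ} {x : X.H}, X.π a x = x → X.π a (R x) = R x := by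
    intro a x hx
    exact X.corr_homog hR (by ring) hx
  have hMτ : ∀ t, τ (M t) = (Z.L ^ (2 * k + 1)) (τ t) := by
    intro t
    rw [hM, ← conj_pow', τ_conj_apply]
  have hgτ : ∀ t, τ (g t) = γ (τ t) := fun t => by rw [hg, τ_conj_apply]
  have hTx : ∀ x y : X.H, T (x ⊗ₜ y) = M (R x ⊗ₜ R y) := by
    intro x y
    rw [hρM, Module.End.mul_apply, hρ, TensorProduct.map_tmul]
  -- low degree
  have hlow' : ∀ (a b : ℤ) (x y : X.H), X.π a x = x → X.π b y = y → a + b = 2 * i →
      g (M (x ⊗ₜ y)) = x ⊗ₜ y := by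
    intro a b x y hx hy hab
    apply τ.injective
    rw [hgτ, hMτ]
    apply hlow (a + b) (by rw [hab]; exact even_two_mul _) (by push_cast; omega)
    exact hsq.grade a b x y hx hy
  -- odd degree
  have hodd' : ∀ (a b : ℤ) (x y : X.H), X.π a x = x → X.π b y = y → a + b = 2 * i + 1 →
      g (M (x ⊗ₜ y)) = 0 := by
    intro a b x y hx hy hab
    apply τ.injective
    rw [hgτ, hMτ, map_zero]
    apply hodd (a + b) (by rw [hab]; exact odd_two_mul_add_one _) (by push_cast; omega)
    exact hsq.grade a b x y hx hy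
  -- high degree
  have hhigh' : ∀ (a b : ℤ) (x y : X.H), X.π a x = x → X.π b y = y → a + b = 2 * i + 2 →
      M (g (T (x ⊗ₜ y))) = T (x ⊗ₜ y) := by
    intro a b x y hx hy hab
    apply τ.injective
    rw [hMτ, hgτ]
    have h2 : Z.π (a + b) (τ (R x ⊗ₜ R y)) = τ (R x ⊗ₜ R y) :=
      hsq.grade a b _ _ (hRh hx) (hRh hy)
    have h3 : Z.π (a + b + 2 * ((2 * k + 1 : ℕ) : ℤ)) (τ (M (R x ⊗ₜ R y))) =
        τ (M (R x ⊗ₜ R y)) := by
      rw [hMτ]
      exact Z.corr_homog (Z.Lpow_corr _) rfl h2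
    rw [hTx]
    refine hhigh (a + b + 2 * ((2 * k + 1 : ℕ) : ℤ)) ?_ ?_ _ h3
    · rw [hab]
      exact ⟨i + 1 + ((2 * k + 1 : ℕ) : ℤ), by ring⟩
    · push_cast
      omega
  -- outside of the three degrees, `T = 0`
  have hout : ∀ (a b : ℤ) (x y : X.H), X.π a x = x → X.π b y = y → a + b ≠ 2 * i →
      a + b ≠ 2 * i + 1 → a + b ≠ 2 * i + 2 → T (x ⊗ₜ y) = 0 := by
    intro a b x y hx hy h0 h1 h2
    rw [hT, LinearMap.smul_apply, LinearMap.add_apply, TensorProduct.map_tmul,
      TensorProduct.map_tmul]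
    have e1 : (R * X.L ^ (k + 1)) x ⊗ₜ[F] (R * X.L ^ k) y = 0 := by
      rcases RL_supp' hsupp hL (k + 1) hx with ⟨h4, h5⟩ | h4
      · rcases RL_supp' hsupp hL k hy with ⟨h6, h7⟩ | h6
        · exfalso
          push_cast at h5 h7
          omega
        · rw [h6, TensorProduct.tmul_zero]
      · rw [h4, TensorProduct.zero_tmul]
    have e2 : (R * X.L ^ k) x ⊗ₜ[F] (R * X.L ^ (k + 1)) y = 0 := by
      rcases RL_supp' hsupp hL (k + 1) hy with ⟨h4, h5⟩ | h4
      · rcases RL_supp' hsupp hL k hx with ⟨h6, h7⟩ | h6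
        · exfalso
          push_cast at h5 h7
          omega
        · rw [h6, TensorProduct.zero_tmul]
      · rw [h4, TensorProduct.tmul_zero]
    rw [e1, e2, add_zero, smul_zero]
  -- the key identity
  have key : g * (T * g * T) = g * T := by
    apply ext_homog_tmul X
    intro a b x y hx hy
    simp only [Module.End.mul_apply]
    by_cases h1 : a + b = 2 * i
    · have h2 : g (T (x ⊗ₜ y)) = ρ (x ⊗ₜ y) := by
        rw [hTx, hρ, TensorProduct.map_tmul]
        exact hlow' a b _ _ (hRh hx) (hRh hy) h1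
      have h3 : T (g (T (x ⊗ₜ y))) = T (x ⊗ₜ y) := by
        rw [h2, ← Module.End.mul_apply, hTρ]
      rw [h3]
    by_cases h2 : a + b = 2 * i + 1
    · have h3 : g (T (x ⊗ₜ y)) = 0 := by
        rw [hTx]
        exact hodd' a b _ _ (hRh hx) (hRh hy) h2
      rw [h3, map_zero, map_zero]
    by_cases h3 : a + b = 2 * i + 2
    · have h4 : T (g (T (x ⊗ₜ y))) = ρ (M (g (T (x ⊗ₜ y)))) := by
        conv_lhs => rw [hTdef, Module.End.mul_apply]
      have h5 : ρ (T (x ⊗ₜ y)) = T (x ⊗ₜ y) := by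
        rw [← Module.End.mul_apply, hρT]
      rw [h4, hhigh' a b x y hx hy h3, h5]
    · rw [hout a b x y hx hy h1 h2 h3]
      simp only [map_zero]
  -- the idempotent
  have hidem : (ρ * g * T) * (ρ * g * T) = ρ * g * T := by
    have e1 : (ρ * g * T) * (ρ * g * T) = ρ * (g * ((T * ρ) * g * T)) := by
      simp only [mul_assoc]
    rw [e1, hTρ, key, mul_assoc]
  -- it lives on the even total degrees
  have heven : ρ * g * T = ρ * g * (T * σ) := by
    apply ext_homog_tmul X
    intro a b x y hx hy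
    simp only [Module.End.mul_apply]
    have h0 : σ (x ⊗ₜ[F] y) = ((-1 : F) ^ (a.natAbs + b.natAbs)) • (x ⊗ₜ[F] y) := by
      rw [hσ, TensorProduct.map_tmul, X.sgn_apply hx, X.sgn_apply hy, TensorProduct.smul_tmul_smul,
        pow_add]
    rw [h0, map_smul, map_smul, map_smul]
    by_cases h2 : a + b = 2 * i + 1
    · have h3 : g (T (x ⊗ₜ y)) = 0 := by
        rw [hTx]
        exact hodd' a b _ _ (hRh hx) (hRh hy) h2
      rw [h3, map_zero, smul_zero]
    by_cases h3 : a + b = 2 * i ∨ a + b = 2 * i + 2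
    · have h4 : Even (a.natAbs + b.natAbs) := by
        rw [← Int.even_coe_nat]
        push_cast
        have h5 : Even (a + b) := by
          rcases h3 with h3 | h3
          · rw [h3]; exact even_two_mul _
          · rw [h3]; exact ⟨i + 1, by ring⟩
        rw [Int.even_add] at h5 ⊢
        rw [even_abs, even_abs]
        exact h5
      rw [h4.neg_one_pow, one_smul]
    · push Not at h3
      rw [hout a b x y hx hy h3.1 h2 h3.2]
      simp only [map_zero, smul_zero]
  -- algebraicity of the contractions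
  have halg : ∀ (p q : ℤ) (f h : Module.End F X.H), f ∈ X.corr p → h ∈ X.corr q →
      ∃ δ ∈ Z.corr (-((2 * k + 1 : ℕ) : ℤ) + (p + q)),
        τ.symm.conj δ = ρ * g * TensorProduct.map f h := by
    intro p q f h hf hh
    refine ⟨τ.conj ρ * γ * τ.conj (TensorProduct.map f h), ?_, ?_⟩
    · have h1 := hsq.prod 0 0 R R hR hR
      have h2 := hsq.prod p q f h hf hh
      exact Z.corr_mul' (by ring) (Z.corr_mul _ _ _ _ h1 hγ) h2
    · rw [conj_mul', conj_mul', conj_conj, conj_conj]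
  have hRL : ∀ m : ℕ, R * X.L ^ m ∈ X.corr m := fun m =>
    X.corr_mul' (by ring) hR (X.Lpow_corr m)
  have hcyc : ∀ θ ∈ X.corr (-((k + 1 : ℕ) : ℤ)),
      LinearMap.trace F X.H (θ * (R * X.L ^ (k + 1) * X.sgn)) = 0 := by
    intro θ hθ
    have h1 := hnil θ hθ
    have h2 : R * θ * R * X.L ^ (k + 1) = R * (θ * (R * X.L ^ (k + 1))) := by
      simp only [mul_assoc]
    rw [h2, LinearMap.trace_mul_comm] at h1
    have h3 : θ * (R * X.L ^ (k + 1)) * R = θ * (R * X.L ^ (k + 1)) := by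
      rw [mul_assoc, mul_assoc, ← comm_pow hL, ← mul_assoc R R, hid]
    rw [h3] at h1
    rw [RL_sgn' hsupp hL hi, mul_smul_comm, map_smul, h1, smul_zero]
  have htrace : LinearMap.trace F (X.H ⊗[F] X.H) (ρ * g * T) = 0 := by
    rw [heven, hT, smul_mul_assoc, mul_smul_comm, map_smul, add_mul, mul_add, map_add]
    have t1 : LinearMap.trace F (X.H ⊗[F] X.H)
        (ρ * g * (TensorProduct.map (R * X.L ^ (k + 1)) (R * X.L ^ k) * σ)) = 0 := by
      have h1 : (TensorProduct.map (R * X.L ^ (k + 1)) (R * X.L ^ k) :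
          Module.End F (X.H ⊗[F] X.H)) * σ = TensorProduct.map 1 (R * X.L ^ k) *
          (TensorProduct.map 1 X.sgn * TensorProduct.map (R * X.L ^ (k + 1) * X.sgn) 1) := by
        rw [hσ, map_mul', map_mul', map_mul', one_mul, one_mul, mul_one]
      rw [h1, ← mul_assoc, ← mul_assoc, ← trace_ptr₂']
      apply hcyc
      obtain ⟨δ, hδ, hδ'⟩ := halg 0 k 1 (R * X.L ^ k) X.corr_one (hRL k)
      have h2 := hsq.contr₂ _ δ hδ
      rw [hδ'] at h2
      convert h2 using 2
      push_cast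
      ring
    have t2 : LinearMap.trace F (X.H ⊗[F] X.H)
        (ρ * g * (TensorProduct.map (R * X.L ^ k) (R * X.L ^ (k + 1)) * σ)) = 0 := by
      have h1 : (TensorProduct.map (R * X.L ^ k) (R * X.L ^ (k + 1)) :
          Module.End F (X.H ⊗[F] X.H)) * σ = TensorProduct.map (R * X.L ^ k) 1 *
          (TensorProduct.map X.sgn 1 * TensorProduct.map 1 (R * X.L ^ (k + 1) * X.sgn)) := by
        rw [hσ, map_mul', map_mul', map_mul', one_mul, one_mul, mul_one]
      rw [h1, ← mul_assoc, ← mul_assoc, ← trace_ptr₁']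
      apply hcyc
      obtain ⟨δ, hδ, hδ'⟩ := halg k 0 (R * X.L ^ k) 1 (hRL k) X.corr_one
      have h2 := hsq.contr₁ _ δ hδ
      rw [hδ'] at h2
      convert h2 using 2
      push_cast
      ring
    rw [t1, t2, add_zero, smul_zero]
  -- conclusion
  have hzero := idem_eq_zero_of_trace _ hidem htrace
  intro x hx
  apply tmul_self_eq_zero (F := F)
  have h1 : g (T (x ⊗ₜ x)) = R x ⊗ₜ R x := by
    rw [hTx]
    exact hlow' i i (R x) (R x) (hRh hx) (hRh hx) (by ring)
  have h2 : (ρ * g * T) (x ⊗ₜ x) = R x ⊗ₜ R x := by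
    simp only [Module.End.mul_apply]
    rw [h1, hρ, TensorProduct.map_tmul, ← Module.End.mul_apply, hid]
  rw [hzero, LinearMap.zero_apply] at h2
  exact h2.symm

end Pool.Agent.Helper29.CPB
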